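import Pool.Agent.Q105.LAT.Stm

set_option autoImplicit false

/-!
Project LAT, job LAT1: the choice of the edges which move to the new vertex
(adapted from `Pool.Agent.Q105.LAB.exists_z`).
-/

namespace Pool.Agent.Q208.LAT

open Finset SimpleGraph Pool.Agent.Q105.LAB Pool.Agent.Q105.LAT

theorem t_Z : S_Z := by
  classical
  intro X J _ _ μ D w n h x hw hDx
  let S : Type := Tok n x
  let P : S → Finset S := fun s => univ.filter
    (fun s' : S => s'.1 = s.1 ∧ (dg n x s.1).Reachable s.2.1 s'.2.1)
  let Q : S → Finset S := fun s => univ.filter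
    (fun s' : S => s'.1 = s.1 ∧ s'.2.1 = x ∧ (s'.2.2 : ℕ) / 2 = (s.2.2 : ℕ) / 2)
  let q : S → J × Finset S := fun s =>
    (s.1, if s.2.1 = x then Q s else if (P s).card = 2 then P s else {s})
  have hself : ∀ s, s ∈ (q s).2 := by
    intro s
    show s ∈ (if s.2.1 = x then Q s else if (P s).card = 2 then P s else {s})
    split_ifs with h0 h1
    · exact mem_filter.2 ⟨mem_univ _, rfl, h0, rfl⟩
    · exact mem_filter.2 ⟨mem_univ _, rfl, Reachable.refl _⟩
    · exact mem_singleton_self _
  have hQ2 : ∀ s, (Q s).card ≤ 2 := by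
    intro s
    have h1 : (Q s).card ≤ (range 2).card := by
      apply card_le_card_of_injOn (fun s' : S => (s'.2.2 : ℕ) % 2)
      · intro s' _
        exact mem_coe.2 (mem_range.2 (Nat.mod_lt _ (by omega)))
      · rintro ⟨j', y', i'⟩ hs' ⟨j'', y'', i''⟩ hs'' he
        obtain ⟨-, a1, a2, a3⟩ := mem_filter.1 (mem_coe.1 hs')
        obtain ⟨-, b1, b2, b3⟩ := mem_filter.1 (mem_coe.1 hs'')
        simp only at a1 a2 a3 b1 b2 b3 he
        subst a1 a2
        subst b1
        subst b2
        have h2 : (i' : ℕ) = (i'' : ℕ) := by omega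
        have h3 : i' = i'' := Fin.ext h2
        rw [h3]
    rw [card_range] at h1
    exact h1
  have hcol : ∀ j, (univ.filter (fun s : S => s.1 = j)).card = 2 * w x := by
    intro j
    rw [card_tok n x (fun j' _ => j' = j)]
    have h1 : ∀ j', (∑ y, if j' = j then n j' x y else 0) = if j' = j then ∑ y, n j' x y else 0 := by
      intro j'
      split_ifs <;> simp
    rw [sum_congr rfl (fun j' _ => h1 j'), sum_ite_eq' univ j, if_pos (mem_univ _), h.deg, hDx,
      mul_comm]
  let b : X → ℕ := fun y => if y = x then (w x - 1) * μ x x else w y * μ x y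
  have hen : ∀ y, (univ.filter (fun s : S => s.2.1 = y)).card = w x * b y := by
    intro y
    rw [card_tok n x (fun _ y' => y' = y)]
    have h1 : ∀ j, (∑ y', if y' = y then n j x y' else 0) = n j x y := by
      intro j
      rw [sum_ite_eq' univ y, if_pos (mem_univ _)]
    rw [sum_congr rfl (fun j _ => h1 j)]
    by_cases hy : y = x
    · subst hy
      simp only [b, if_pos rfl]
      exact h.totd y
    · simp only [b, if_neg hy]
      exact h.tot x y (fun e => hy e.symm)
  obtain ⟨Z, hZ1, hZ2, hZ3⟩ := pick (fun s : S => s.1) (fun s : S => s.2.1) q Prod.fst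
    (fun s => rfl) (by
      intro ρ
      by_cases hρ : ∃ s, q s = ρ
      · obtain ⟨s, rfl⟩ := hρ
        have h1 : univ.filter (fun s' => q s' = q s) ⊆ (q s).2 := by
          intro s' hs'
          rw [← (mem_filter.1 hs').2]
          exact hself s'
        refine le_trans (card_le_card h1) ?_
        show (if s.2.1 = x then Q s else if (P s).card = 2 then P s else {s}).card ≤ 2
        split_ifs with h0 h2
        · exact hQ2 s
        · exact h2.le
        · rw [card_singleton]; omega
      · have h1 : univ.filter (fun s' => q s' = ρ) = ∅ := by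
          ext s'
          simp only [mem_filter, mem_univ, true_and, notMem_empty, iff_false]
          exact fun h => hρ ⟨s', h⟩
        rw [h1, card_empty]
        omega) (w x) hw hcol b hen
  let z : J → X → ℕ := fun j y => (Z.filter (fun s : S => s.1 = j ∧ s.2.1 = y)).card
  have hz : ∀ j y, z j y ≤ n j x y := by
    intro j y
    have h1 : Z.filter (fun s : S => s.1 = j ∧ s.2.1 = y) ⊆
        univ.filter (fun s : S => s.1 = j ∧ s.2.1 = y) := filter_subset_filter _ (subset_univ _)
    refine le_trans (card_le_card h1) ?_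
    rw [card_tok n x (fun j' y' => j' = j ∧ y' = y)]
    have h2 : ∀ j', (∑ y', if (j' = j ∧ y' = y) then n j' x y' else 0) =
        if j' = j then n j' x y else 0 := by
      intro j'
      by_cases hj : j' = j
      · simp [hj]
      · simp [hj]
    rw [sum_congr rfl (fun j' _ => h2 j'), sum_ite_eq' univ j, if_pos (mem_univ _)]
  have hfib : ∀ (A : Finset S) (j : J) (C : Finset X),
      ∑ y ∈ C, (A.filter (fun s : S => s.1 = j ∧ s.2.1 = y)).card =
        (A.filter (fun s : S => s.1 = j ∧ s.2.1 ∈ C)).card := by
    intro A j C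
    rw [card_eq_sum_card_fiberwise (f := fun s : S => s.2.1) (t := C)
      (s := A.filter (fun s : S => s.1 = j ∧ s.2.1 ∈ C))]
    · refine sum_congr rfl fun y hy => ?_
      congr 1
      ext s
      simp only [mem_filter]
      constructor
      · rintro ⟨h1, h2, h3⟩
        exact ⟨⟨h1, h2, h3 ▸ hy⟩, h3⟩
      · rintro ⟨⟨h1, h2, _⟩, h3⟩
        exact ⟨h1, h2, h3⟩
    · intro s hs
      exact (mem_filter.1 hs).2.2
  have hend : ∀ y, ∑ j, z j y = b y := by
    intro y
    have h1 := hZ2 y
    rw [← h1, card_eq_sum_card_fiberwise (f := fun s : S => s.1) (t := univ)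
      (fun _ _ => mem_coe.2 (mem_univ _))]
    refine sum_congr rfl fun j _ => ?_
    show (Z.filter (fun s : S => s.1 = j ∧ s.2.1 = y)).card = _
    congr 1
    ext s
    simp only [mem_filter]
    tauto
  refine ⟨z, hz, ?_, ?_, ?_, ?_, ?_⟩
  · intro j
    have h1 : z j x ≤ (range (n j x x / 2)).card := by
      apply card_le_card_of_injOn (fun s : S => (s.2.2 : ℕ) / 2)
      · rintro ⟨j', y', i'⟩ hs'
        obtain ⟨-, a1, a2⟩ := mem_filter.1 (mem_coe.1 hs')
        simp only at a1 a2
        subst a1 a2
        obtain ⟨r, hr⟩ := h.evn j' y'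
        have h2 := i'.isLt
        refine mem_coe.2 (mem_range.2 ?_)
        show (i' : ℕ) / 2 < n j' y' y' / 2
        omega
      · intro s hs s' hs' he
        obtain ⟨hs1, hs2, hs3⟩ := mem_filter.1 (mem_coe.1 hs)
        obtain ⟨hs1', hs2', hs3'⟩ := mem_filter.1 (mem_coe.1 hs')
        refine hZ3 hs1 hs1' ?_
        show (s.1, if s.2.1 = x then Q s else if (P s).card = 2 then P s else {s}) =
          (s'.1, if s'.2.1 = x then Q s' else if (P s').card = 2 then P s' else {s'})
        rw [if_pos hs3, if_pos hs3']
        have h5 : Q s = Q s' := by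
          ext s''
          simp only [Q, mem_filter, mem_univ, true_and]
          constructor
          · rintro ⟨b1, b2, b3⟩
            exact ⟨b1.trans (hs2.trans hs2'.symm), b2, b3.trans he⟩
          · rintro ⟨b1, b2, b3⟩
            exact ⟨b1.trans (hs2'.trans hs2.symm), b2, b3.trans he.symm⟩
        rw [h5, hs2, hs2']
    rw [card_range] at h1
    omega
  · intro j
    have h1 := hfib Z j univ
    simp only [mem_univ, and_true] at h1
    rw [← hZ1 j]
    exact h1
  · intro y hy
    rw [hend y]
    simp only [b, if_neg hy]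
  · rw [hend x]
    simp only [b, if_pos rfl]
  · intro j a C ha hC
    have hCe : C = univ.filter (fun y => (dg n x j).Reachable a y) := by
      ext y
      rw [hC, mem_filter]
      exact ⟨fun h => ⟨mem_univ _, h⟩, fun h => h.2⟩
    rw [hCe]
    intro h2
    have h1 := hfib Z j (univ.filter (fun y => (dg n x j).Reachable a y))
    have h3 := hfib univ j (univ.filter (fun y => (dg n x j).Reachable a y))
    show ∑ y ∈ univ.filter (fun y => (dg n x j).Reachable a y),
      (Z.filter (fun s : S => s.1 = j ∧ s.2.1 = y)).card ≤ 1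
    have h4 : ∀ y, (univ.filter (fun s : S => s.1 = j ∧ s.2.1 = y)).card = n j x y := by
      intro y
      rw [card_tok n x (fun j' y' => j' = j ∧ y' = y)]
      have h2 : ∀ j', (∑ y', if (j' = j ∧ y' = y) then n j' x y' else 0) =
          if j' = j then n j' x y else 0 := by
        intro j'
        by_cases hj : j' = j
        · simp [hj]
        · simp [hj]
      rw [sum_congr rfl (fun j' _ => h2 j'), sum_ite_eq' univ j, if_pos (mem_univ _)]
    rw [sum_congr rfl (fun y _ => h4 y), h2] at h3
    rw [h1, card_le_one]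
    have hP : ∀ s : S, s.1 = j → (dg n x j).Reachable a s.2.1 → P s = univ.filter
        (fun s : S => s.1 = j ∧ s.2.1 ∈ univ.filter (fun y => (dg n x j).Reachable a y)) := by
      rintro ⟨j', y, i⟩ hj hr
      obtain rfl : j' = j := hj
      ext s'
      simp only [P, mem_filter, mem_univ, true_and]
      constructor
      · rintro ⟨h5, h6⟩
        exact ⟨h5, hr.trans h6⟩
      · rintro ⟨h5, h6⟩
        exact ⟨h5, hr.symm.trans h6⟩
    intro s hs s' hs'
    obtain ⟨hs1, hs2, hs3⟩ := mem_filter.1 hs
    obtain ⟨hs1', hs2', hs3'⟩ := mem_filter.1 hs'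
    have hr := (mem_filter.1 hs3).2
    have hr' := (mem_filter.1 hs3').2
    have hx1 : s.2.1 ≠ x := dg_reach_ne hr ha
    have hx2 : s'.2.1 ≠ x := dg_reach_ne hr' ha
    refine hZ3 hs1 hs1' ?_
    show (s.1, if s.2.1 = x then Q s else if (P s).card = 2 then P s else {s}) =
      (s'.1, if s'.2.1 = x then Q s' else if (P s').card = 2 then P s' else {s'})
    rw [if_neg hx1, if_neg hx2, hP s hs2 hr, hP s' hs2' hr', ← h3, if_pos rfl, if_pos rfl, hs2,
      hs2']

end Pool.Agent.Q208.LAT
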